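import Mathlib

set_option autoImplicit false
open MeasureTheory
open scoped ContDiff

namespace Pool.Agent.P.MP_97b9bc_mp

/-- three-dimensional Euclidean space -/
abbrev R3 := EuclideanSpace ℝ (Fin 3)

/-- `g` is the distributional gradient of `u` -/
def IsWeakGradient (u : R3 → ℝ) (g : R3 → R3) : Prop :=
  ∀ φ : R3 → ℝ, ContDiff ℝ ∞ φ → HasCompactSupport φ → ∀ v : R3,
    ∫ x, u x * fderiv ℝ φ x v = -∫ x, inner ℝ (g x) v * φ x

/-- `ρ ≥ 0` is a density whose square root lies in `H¹(ℝ³)`, with distributional gradient `g` -/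
structure H1Root (ρ : R3 → ℝ) (g : R3 → R3) : Prop where
  nonneg : ∀ x, 0 ≤ ρ x
  L1 : Integrable ρ
  grad : IsWeakGradient (fun x => √(ρ x)) g
  grad_L2 : MemLp g 2

/-- the Thomas-Fermi-von Weizsacker energy of an atom of nuclear charge `z` -/
noncomputable def tfw (A γ z : ℝ) (ρ : R3 → ℝ) (g : R3 → R3) : ℝ :=
  A * (∫ x, ‖g x‖ ^ 2) + 3 / 5 * γ * (∫ x, ρ x ^ (5 / 3 : ℝ)) - (∫ x, z / ‖x‖ * ρ x) +
    1 / 2 * ∫ q : R3 × R3, ρ q.1 * ρ q.2 / ‖q.1 - q.2‖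

/-- `ρ` is an unconstrained minimiser of the energy -/
def IsGround (A γ z : ℝ) (ρ : R3 → ℝ) : Prop :=
  ∃ g, H1Root ρ g ∧ ∀ ρ' g', H1Root ρ' g' → tfw A γ z ρ g ≤ tfw A γ z ρ' g'

end Pool.Agent.P.MP_97b9bc_mp
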